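import Pool.Agent.Lib.helper21.Clone3

set_option autoImplicit false

/-! The affine plane over a finite field: flags are permuted transitively by collineations. -/

namespace Pool.Agent.H.MP_b3bbc0_lc

open Pool.Agent.Lib.helper21.KC Finset Pointwise

/-- Lines of the affine plane. -/
def IsLine {F : Type} [Field F] (l : Set (F × F)) : Prop :=
  (∃ k c, l = {p | p.2 = k * p.1 + c}) ∨ ∃ c, l = {p | p.1 = c}

variable {F : Type} [Field F]

theorem isLine_of {a b c : F} (h : a ≠ 0 ∨ b ≠ 0) : IsLine {p : F × F | a * p.1 + b * p.2 = c} := by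
  by_cases hb : b = 0
  · have ha := h.resolve_right (not_not.2 hb)
    refine Or.inr ⟨c / a, Set.ext fun p => ?_⟩
    simp [hb, eq_div_iff ha, mul_comm]
  · refine Or.inl ⟨-a / b, c / b, Set.ext fun p => ?_⟩
    simp only [Set.mem_ofPred_eq]
    constructor
    · intro h; rw [← h]; field_simp; ring
    · intro h; rw [h]; field_simp; ring

theorem pre {α β γ δ s t : F} (hd : α * δ - β * γ ≠ 0) {f : F × F → F × F}
    (hf : ∀ p, f p = (α * p.1 + β * p.2 + s, γ * p.1 + δ * p.2 + t)) {l : Set (F × F)}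
    (hl : IsLine l) : IsLine (f ⁻¹' l) := by
  rcases hl with ⟨k, c, rfl⟩ | ⟨c, rfl⟩
  · have : f ⁻¹' {p | p.2 = k * p.1 + c} =
        {p | (γ - k * α) * p.1 + (δ - k * β) * p.2 = k * s + c - t} := Set.ext fun p => by
      simp only [Set.mem_preimage, Set.mem_ofPred_eq, hf]
      constructor <;> intro h <;> linear_combination h
    rw [this]
    refine isLine_of (by_contra fun h => hd ?_)
    push Not at h
    linear_combination α * h.2 - β * h.1
  · have : f ⁻¹' {p | p.1 = c} = {p | α * p.1 + β * p.2 = c - s} := Set.ext fun p => by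
      simp only [Set.mem_preimage, Set.mem_ofPred_eq, hf]
      constructor <;> intro h <;> linear_combination h
    rw [this]
    refine isLine_of (by_contra fun h => hd ?_)
    push Not at h
    simp [h.1, h.2]

def coll (F : Type) [Field F] : Subgroup (Equiv.Perm (F × F)) where
  carrier := {g | ∀ l : Set (F × F), IsLine l → IsLine (g • l) ∧ IsLine (g⁻¹ • l)}
  one_mem' := fun l h => by simpa using h
  mul_mem' := fun {g h} hg hh l hl => by
    rw [mul_inv_rev, mul_smul, mul_smul]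
    exact ⟨(hg _ (hh l hl).1).1, (hh _ (hg l hl).2).2⟩
  inv_mem' := fun {g} hg l hl => by simpa using (hg l hl).symm

theorem base {l : Set (F × F)} {p : F × F} (hl : IsLine l) (hp : p ∈ l) :
    ∃ g : coll F, g • (l, p) = ({q : F × F | q.1 = 0}, (0, 0)) := by
  rcases hl with ⟨k, c, rfl⟩ | ⟨c, rfl⟩
  · have hp' : p.2 = k * p.1 + c := hp
    let g : Equiv.Perm (F × F) := ⟨fun q => (q.2 - k * q.1 - c, q.1 - p.1),
      fun q => (q.2 + p.1, q.1 + k * (q.2 + p.1) + c),
      fun q => Prod.ext (by simp) (by dsimp only; ring),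
      fun q => Prod.ext (by dsimp only; ring) (by simp)⟩
    refine ⟨⟨g, fun l hl => ⟨?_, ?_⟩⟩, Prod.ext ?_ ?_⟩
    · rw [← Set.preimage_smul_inv]
      exact pre (α := 0) (β := 1) (γ := 1) (δ := k) (s := p.1) (t := k * p.1 + c) (by simp)
        (fun q => Prod.ext (show q.2 + p.1 = _ by ring)
          (show q.1 + k * (q.2 + p.1) + c = _ by ring)) hl
    · rw [← Set.preimage_smul]
      exact pre (α := -k) (β := 1) (γ := 1) (δ := 0) (s := -c) (t := -p.1) (by simp)
        (fun q => Prod.ext (show q.2 - k * q.1 - c = _ by ring) (show q.1 - p.1 = _ by ring)) hl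
    · refine Set.ext fun q => Set.mem_smul_set_iff_inv_smul_mem.trans ?_
      change q.1 + k * (q.2 + p.1) + c = k * (q.2 + p.1) + c ↔ q.1 = 0
      simp
    · exact Prod.ext (show p.2 - k * p.1 - c = 0 by rw [hp']; ring) (sub_self p.1)
  · have hp' : p.1 = c := hp
    refine ⟨⟨Equiv.subRight p, fun l hl => ⟨?_, ?_⟩⟩, Prod.ext ?_ (sub_self p)⟩
    · rw [← Set.preimage_smul_inv]
      exact pre (α := 1) (β := 0) (γ := 0) (δ := 1) (s := p.1) (t := p.2) (by simp)
        (fun q => Prod.ext (show q.1 + p.1 = _ by ring) (show q.2 + p.2 = _ by ring)) hl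
    · rw [← Set.preimage_smul]
      exact pre (α := 1) (β := 0) (γ := 0) (δ := 1) (s := -p.1) (t := -p.2) (by simp)
        (fun q => Prod.ext (show q.1 - p.1 = _ by ring) (show q.2 - p.2 = _ by ring)) hl
    · refine Set.ext fun q => Set.mem_smul_set_iff_inv_smul_mem.trans ?_
      change q.1 + p.1 = c ↔ q.1 = 0
      simp [hp']

open Classical in
theorem flags [Fintype F] {m : ℕ} (h : Fintype.card F ≤ 2 ^ m) :
    #(univ.filter fun y : Set (F × F) × F × F => IsLine y.1 ∧ y.2 ∈ y.1) < 2 ^ (3 * m + 2) := by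
  have h1 : (univ.filter fun y : Set (F × F) × F × F => IsLine y.1 ∧ y.2 ∈ y.1) ⊆
      (univ.image fun z : F × F × F => (({p | p.2 = z.1 * p.1 + z.2.1} : Set (F × F)),
        (z.2.2, z.1 * z.2.2 + z.2.1))) ∪
      univ.image fun z : F × F × F => (({p | p.1 = z.1} : Set (F × F)), (z.1, z.2.1)) := by
    rintro ⟨l, p⟩ hy
    obtain ⟨⟨k, c, rfl⟩ | ⟨c, rfl⟩, h2⟩ := (mem_filter.1 hy).2
    · exact mem_union_left _ (mem_image.2 ⟨(k, c, p.1), mem_univ _,
        Prod.ext rfl (Prod.ext rfl (Eq.symm h2))⟩)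
    · exact mem_union_right _ (mem_image.2 ⟨(c, p.2, 0), mem_univ _,
        Prod.ext rfl (Prod.ext (Eq.symm h2) rfl)⟩)
  have h2 := (card_le_card h1).trans ((card_union_le _ _).trans
    (add_le_add card_image_le card_image_le))
  have h3 := Nat.pow_le_pow_left h 3
  have h4 : 0 < 2 ^ (3 * m) := by positivity
  rw [← pow_mul, mul_comm m] at h3
  simp only [card_univ, Fintype.card_prod] at h2
  rw [pow_add]
  nlinarith

/-- A short list of collineations moves every flag into a given large set of flags. -/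
theorem moves [Fintype F] {m γ : ℕ} (h : Fintype.card F ≤ 2 ^ m) {A : Set (F × F) × F × F → Prop}
    (hA : Many (2 ^ γ) fun y => (IsLine y.1 ∧ y.2 ∈ y.1) ∧ A y) :
    ∃ f : ℕ → coll F, ∀ y : Set (F × F) × F × F, IsLine y.1 ∧ y.2 ∈ y.1 →
      ∃ i < 2 ^ (3 * m + 2 - γ) * (3 * m + 2), A (f i • y) := by
  classical
  obtain ⟨B, h1, h2⟩ := hA
  have h3 := flags h
  obtain ⟨f, hf⟩ := cover (G := coll F) (A := B) (M := 2 ^ (3 * m + 2 - γ))
    (fun g y hy => mem_filter.2 ⟨mem_univ _,
    (g.2 _ (mem_filter.1 hy).2.1).1, Set.smul_mem_smul_set (mem_filter.1 hy).2.2⟩)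
    (fun y hy y' hy' => by
      obtain ⟨g, hg⟩ := base (mem_filter.1 hy).2.1 (mem_filter.1 hy).2.2
      obtain ⟨g', hg'⟩ := base (mem_filter.1 hy').2.1 (mem_filter.1 hy').2.2
      exact ⟨g'⁻¹ * g, by rw [mul_smul, hg, ← hg', inv_smul_smul]⟩)
    (fun y hy => mem_filter.2 ⟨mem_univ _, (h2 y hy).1⟩)
    (h3.le.trans (le_trans (by
      rw [← pow_add]
      exact Nat.pow_le_pow_right (by norm_num) (by omega)) (Nat.mul_le_mul_left _ h1))) h3
  exact ⟨f, fun y hy => let ⟨i, h4, h5⟩ := hf y (mem_filter.2 ⟨mem_univ _, hy⟩)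
    ⟨i, h4, (h2 _ h5).2⟩⟩

end Pool.Agent.H.MP_b3bbc0_lc
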