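import Pool.Agent.H.MP_b3bbc0_lc.A

set_option autoImplicit false

/-! Tables of matched edges found by search. -/

namespace Pool.Agent.H.MP_b3bbc0_lc

open Primrec Pool.Agent.H.MP_d04dff_lc Pool.Agent.Lib.helper21.KC

abbrev Ent := ℕ × Pr × Pr

def Good (tab : List Ent) : Prop := ∀ x ∈ tab, ∀ y ∈ tab, x.1 = y.1 →
  (x.2.1.1 = y.2.1.1 ↔ x.2.2.1 = y.2.2.1) ∧ (x.2.1.2 = y.2.1.2 ↔ x.2.2.2 = y.2.2.2)

theorem piff {α : Type} [Primcodable α] {p q : α → Prop} (hp : PrimrecPred p) (hq : PrimrecPred q) :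
    PrimrecPred fun a => p a ↔ q a :=
  ((hp.and hq).or (hp.not.and hq.not)).of_eq fun a => by tauto

theorem good_prim : PrimrecPred Good := by
  have e : ∀ f : Ent → Str, Primrec f → PrimrecPred fun z : Ent × Ent => f z.2 = f z.1 :=
    fun f hf => Primrec.eq.comp (hf.comp snd) (hf.comp fst)
  have h1 : PrimrecRel fun y x : Ent => x.1 = y.1 →
      (x.2.1.1 = y.2.1.1 ↔ x.2.2.1 = y.2.2.1) ∧ (x.2.1.2 = y.2.1.2 ↔ x.2.2.2 = y.2.2.2) :=
    ((Primrec.eq.comp (fst.comp snd) (fst.comp fst)).not.or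
      ((piff (e _ (fst.comp (fst.comp snd))) (e _ (fst.comp (snd.comp snd)))).and
        (piff (e _ (snd.comp (fst.comp snd))) (e _ (snd.comp (snd.comp snd)))))).of_eq
      fun z => imp_iff_not_or.symm
  have h2 : PrimrecRel fun (x : Ent) (tab : List Ent) => ∀ y ∈ tab, x.1 = y.1 →
      (x.2.1.1 = y.2.1.1 ↔ x.2.2.1 = y.2.2.1) ∧ (x.2.1.2 = y.2.1.2 ↔ x.2.2.2 = y.2.2.2) :=
    h1.forall_mem_list.comp snd fst
  exact h2.forall_mem_list.comp .id .id

def tri (x : Pr) (q : Str) : List Str := [x.1, x.2, q]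

theorem tri_prim {α : Type} [Primcodable α] {x : α → Pr} {q : α → Str} (hx : Primrec x)
    (hq : Primrec q) : Primrec fun a => tri (x a) (q a) :=
  list_cons.comp (fst.comp hx) (list_cons.comp (snd.comp hx) (list_cons.comp hq (const [])))

theorem tri_congr {S : List ℕ} {x y x' y' : Pr} {q q' : Str} (h1 : x.1 = y.1 → x'.1 = y'.1)
    (h2 : x.2 = y.2 → x'.2 = y'.2) (h : S.map (co (tri x q)) = S.map (co (tri y q'))) :
    S.map (co (tri x' q)) = S.map (co (tri y' q')) :=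
  List.map_congr_left fun i hi => by
    have := List.map_inj_left.1 h i hi
    rcases i with _ | _ | _ | i
    exacts [h1 this, h2 this, this, rfl]

variable {U : Str →. Str} {e : List Str → Str} {E : ℕ → List Pr}

/-- The search for a table, and the effect of exchanging matched edges. -/
theorem tables (hU : Opt U) (he : Computable e) (hi : Function.Injective e) (hE : Computable E)
    {Q : List ℕ → ℕ → Str → Prop} (sQ : Sig fun z : (List ℕ × ℕ) × Str => Q z.1.1 z.1.2 z.2)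
    (M : List (List ℕ)) (r : ℕ) : ∃ c, ∀ N n B (p : List ℕ) (tab : List Ent), p.length ≤ r →
      (∀ x ∈ n :: B :: p, x ≤ N) → (∀ x ∈ tab, x.1 ≤ B ∧ ∃ j, Q p j (e [x.2.1.1, x.2.1.2])) →
      Good tab → (∀ x ∈ E n, ∃ y ∈ tab, y.2.2 = x) → ∀ x' ∈ E n, ∃ (x : Pr) (j : ℕ),
        Q p j (e [x.1, x.2]) ∧ ∀ S ∈ M, ∀ q,
          K U (e (S.map (co (tri x' q)))) ≤ K U (e (S.map (co (tri x q)))) + c * lg N ∧
          K U (e (S.map (co (tri x q)))) ≤ K U (e (S.map (co (tri x' q)))) + c * lg N := by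
  have g1 : Primrec fun z : ((List ℕ × List Ent) × Ent) × ℕ => [z.1.2.2.1.1, z.1.2.2.1.2] :=
    list_cons.comp (fst.comp (fst.comp (snd.comp (snd.comp fst)))) (list_cons.comp
      (snd.comp (fst.comp (snd.comp (snd.comp fst)))) (const []))
  have s1 : Sig fun z : ((List ℕ × List Ent) × Ent) × ℕ =>
      Q z.1.1.1.tail.tail z.2 (e [z.1.2.2.1.1, z.1.2.2.1.2]) :=
    Sig.ccomp (R := fun (z : ((List ℕ × List Ent) × Ent) × ℕ) u => Q z.1.1.1.tail.tail z.2 u)
      (sQ.comp (((tl (tl (fst.comp (fst.comp (fst.comp fst))))).pair (snd.comp fst)).pair snd)) he g1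
  have s2 : Sig fun z : List ℕ × List Ent => ∀ x ∈ z.2, x.1 ≤ z.1.tail.getD 0 0 ∧
      ∃ j, Q z.1.tail.tail j (e [x.2.1.1, x.2.1.2]) :=
    Sig.ball ((Sig.prim (nat_le.comp (fst.comp snd) (gD (tl (fst.comp fst)) 0))).and (Sig.ex s1)) snd
  have g2 : PrimrecRel fun (y : Ent) (x : Pr) => y.2.2 = x :=
    Primrec.eq.comp (snd.comp (snd.comp fst)) snd
  have g3 : PrimrecRel fun (x : Pr) (tab : List Ent) => ∃ y ∈ tab, y.2.2 = x :=
    g2.exists_mem_list.comp snd fst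
  have s3 : Sig fun z : List ℕ × List Ent => ∀ x ∈ E (z.1.getD 0 0), ∃ y ∈ z.2, y.2.2 = x :=
    Sig.ccomp (R := fun (z : List ℕ × List Ent) (L : List Pr) => ∀ x ∈ L, ∃ y ∈ z.2, y.2.2 = x)
      (Sig.prim (g3.forall_mem_list.comp snd (snd.comp fst))) hE (gD fst 0)
  obtain ⟨f, f1, f2, f3⟩ := Sig.unif (R := fun (a : List ℕ) (tab : List Ent) =>
    (∀ x ∈ tab, x.1 ≤ a.tail.getD 0 0 ∧ ∃ j, Q a.tail.tail j (e [x.2.1.1, x.2.1.2])) ∧ Good tab ∧
      ∀ x ∈ E (a.getD 0 0), ∃ y ∈ tab, y.2.2 = x)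
    (s2.and ((Sig.prim (good_prim.comp snd)).and s3))
  let R : List ℕ → List ℕ → Str → Str → Prop := fun S a u u' => ∃ w : (List Ent × Ent) × Str,
    (w.1.1 ∈ f a.tail ∧ w.1.2 ∈ w.1.1 ∧ w.1.2.1 = a.getD 0 0) ∧
      u = e (S.map (co (tri w.1.2.2.1 w.2))) ∧ u' = e (S.map (co (tri w.1.2.2.2 w.2)))
  have g4 : Primrec fun z : ((List ℕ × Str) × Str) × (List Ent × Ent) × Str => z.2.1.2 :=
    snd.comp (fst.comp snd)
  have g5 : Primrec fun z : ((List ℕ × Str) × Str) × (List Ent × Ent) × Str => z.1.1.1 :=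
    fst.comp (fst.comp fst)
  have sR : ∀ S, Sig fun z : (List ℕ × Str) × Str => R S z.1.1 z.1.2 z.2 := fun S =>
    Sig.ex ((((Sig.mem f1).comp ((tl g5).pair (fst.comp (fst.comp snd)))).and (Sig.prim
      ((mem_prim.comp g4 (fst.comp (fst.comp snd))).and (Primrec.eq.comp (fst.comp g4)
        (gD g5 0))))).and ((Sig.graph he ((sel_prim S).comp (tri_prim (fst.comp (snd.comp g4))
          (snd.comp snd))) (snd.comp (fst.comp fst))).and (Sig.graph he ((sel_prim S).comp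
            (tri_prim (snd.comp (snd.comp g4)) (snd.comp snd))) (snd.comp fst))))
  choose c₁ h₁ using fun S => hU.closeL (sR S) (r + 3) 1
  choose c₂ h₂ using fun S => hU.closeL (R := fun a u u' => R S a u' u)
    ((sR S).comp (((fst.comp fst).pair snd).pair (snd.comp fst))) (r + 3) 1
  refine ⟨(M.map fun S => c₁ S + c₂ S).sum, fun N n B p tab hp hN t1 t2 t3 x' hx' => ?_⟩
  obtain ⟨tab', ht⟩ := f3 (n :: B :: p) tab ⟨t1, t2, t3⟩
  obtain ⟨t4, t5, t6⟩ := f2 _ _ ht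
  obtain ⟨y, hy, rfl⟩ := t6 x' hx'
  obtain ⟨y1, j, y2⟩ := t4 y hy
  refine ⟨y.2.1, j, y2, fun S hS q => ?_⟩
  have k1 := Nat.mul_le_mul_right (lg N) (List.single_le_sum (fun _ _ => Nat.zero_le _) _
    (List.mem_map_of_mem (f := fun S => c₁ S + c₂ S) hS))
  have k2 : ∀ x ∈ y.1 :: n :: B :: p, x ≤ 1 * (N + 1) := fun x hx => by
    rcases List.mem_cons.1 hx with rfl | hx
    · have := hN B (by simp)
      simp only [List.tail_cons, List.getD_cons_zero] at y1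
      omega
    · have := hN x hx
      omega
  have k3 : R S (y.1 :: n :: B :: p) _ _ := ⟨((tab', y), q), ⟨ht, hy, rfl⟩, rfl, rfl⟩
  have k4 := h₁ S N _ _ _ (by simpa using hp) k2 k3 fun u ⟨w, ⟨w1, w2, w3⟩, w4, w5⟩ => by
    rw [← Part.mem_unique ht w1] at w2
    have := t5 y hy _ w2 w3.symm
    rw [w5, tri_congr this.1.1 this.2.1 (hi w4)]
  have k5 := h₂ S N _ _ _ (by simpa using hp) k2 k3 fun u ⟨w, ⟨w1, w2, w3⟩, w4, w5⟩ => by
    rw [← Part.mem_unique ht w1] at w2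
    have := t5 y hy _ w2 w3.symm
    rw [w4, tri_congr this.1.2 this.2.2 (hi w5)]
  rw [add_mul] at k1
  dsimp only at k4 k5
  omega

theorem bound (hU : Opt U) (he : Computable e) (hE : Computable E) (a : ℕ) (M : List (List ℕ)) :
    ∃ c, ∀ n, (¬ Many (2 ^ (3 * (n + a) + 2)) (· ∈ E n)) → ∀ x ∈ E n, ∀ S ∈ M, ∀ q,
      K U (e (S.map (co (tri x q)))) ≤ K U q + (3 * (n + a) + 2) + c * lg n := by
  have sE : Sig fun z : ((List ℕ × Str) × Str) × Pr => z.2 ∈ E (z.1.1.1.getD 0 0) :=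
    Sig.ccomp (R := fun (z : ((List ℕ × Str) × Str) × Pr) (L : List Pr) => z.2 ∈ L)
      (Sig.prim (mem_prim.comp (snd.comp fst) snd)) hE (gD (fst.comp (fst.comp fst)) 0)
  choose c h using fun S : List ℕ => hU.condL (R := fun a u u' => ∃ x ∈ E (a.getD 0 0),
    u' = e (S.map (co (tri x u)))) (Sig.ex (sE.and (Sig.graph he ((sel_prim S).comp (tri_prim snd
      (snd.comp (fst.comp fst)))) (snd.comp fst)))) 1 (3 * a + 5)
  refine ⟨(M.map c).sum, fun n hn x hx S hS q => ?_⟩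
  have k1 := Nat.mul_le_mul_right (lg n) (List.single_le_sum (fun _ _ => Nat.zero_le _) _
    (List.mem_map_of_mem (f := c) hS))
  have := h S n [n] q _ (3 * (n + a) + 2) le_rfl (by simp; nlinarith) (by nlinarith) ⟨x, hx, rfl⟩
    fun h => hn ((h.rel (fun u x => u = e (S.map (co (tri x q)))) (fun u ⟨x, h1, h2⟩ => ⟨x, h2, h1⟩)
      fun _ _ _ _ _ h1 h2 => h1.trans h2.symm).mono (Nat.le_succ _) fun _ h => h)
  omega

end Pool.Agent.H.MP_b3bbc0_lc
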